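import Pool.Agent.W557.NC.Defs

set_option autoImplicit false

open scoped BigOperators

namespace Pool.Agent.W74.NC.NC2
open Pool.Agent.W557.NC

theorem main : S_ramsey := by
  classical
  intro E _ Z d h1 h2 h3 h4
  let m : ℕ → E := fun i => Z 0 i 0
  have hmd : ∀ i j, i < j → dist (m i) (m j) = d i j := by
    intro i j hij
    rw [dist_eq_norm]; exact h2 0 i j 0 0 hij
  have hminj : Function.Injective m := by
    intro i j hij
    rcases lt_trichotomy i j with h | h | h
    · have := hmd i j h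
      rw [hij, dist_self] at this
      exact absurd this (h1 i j h).ne
    · exact h
    · have := hmd j i h
      rw [hij, dist_self] at this
      exact absurd this (h1 j i h).ne
  refine ⟨Set.range m, Set.infinite_range_of_injective hminj, ?_⟩
  intro c
  by_cases hex : ∃ (p : E) (a : ZMod 5) (x : Fin 2), ∀ i, ∃ s, c (p + Z a i s) = x
  · obtain ⟨p, a, x, hs⟩ := hex
    choose s hs using hs
    let f : E → E := fun y => if h : ∃ i, m i = y then p + Z a h.choose (s h.choose) else y
    have hf : ∀ i, f (m i) = p + Z a i (s i) := by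
      intro i
      have hex : ∃ j, m j = m i := ⟨i, rfl⟩
      have hc : hex.choose = i := hminj hex.choose_spec
      simp only [f]
      rw [dif_pos hex, hc]
    refine ⟨f, ?_, ?_⟩
    · rintro _ ⟨i, rfl⟩ _ ⟨j, rfl⟩
      rw [hf, hf, dist_add_left]
      rcases lt_trichotomy i j with h | h | h
      · rw [hmd i j h, dist_eq_norm]; exact h2 a i j _ _ h
      · rw [h, dist_self, dist_self]
      · rw [dist_comm, dist_comm (m i), hmd j i h, dist_eq_norm]; exact h2 a j i _ _ h
    · rintro _ ⟨i, rfl⟩ _ ⟨j, rfl⟩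
      rw [hf, hf, hs, hs]
  · exfalso
    push Not at hex
    have hfin : ∀ u x : Fin 2, u ≠ x → u = 1 - x := by decide
    have hfin2 : ∀ x : Fin 2, 1 - x ≠ x := by decide
    have hexP : ∃ k, ∃ (p : E) (a : ZMod 5) (x : Fin 2), ∀ s, c (p + Z a k s) = x := by
      obtain ⟨i, hi⟩ := hex 0 0 0
      exact ⟨i, 0, 0, 1 - 0, fun s => hfin _ _ (hi s)⟩
    let k := Nat.find hexP
    have hkmin : ∀ i, (∃ (p : E) (a : ZMod 5) (x : Fin 2), ∀ s, c (p + Z a i s) = x) → k ≤ i :=
      fun i hi => Nat.find_min' hexP hi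
    obtain ⟨p, a, x, hk⟩ : ∃ (p : E) (a : ZMod 5) (x : Fin 2), ∀ s, c (p + Z a k s) = x :=
      Nat.find_spec hexP
    have step : ∀ (p : E) (a : ZMod 5) (x : Fin 2), (∀ s, c (p + Z a k s) = x) →
        ∀ s, c ((p + Z a k k) + Z (a + 1) k s) = 1 - x := by
      intro p a x hpx
      obtain ⟨i, hi⟩ := hex (p + Z a k k) (a + 1) x
      have hki : k ≤ i := hkmin i ⟨p + Z a k k, a + 1, 1 - x, fun s => hfin _ _ (hi s)⟩
      rcases hki.lt_or_eq with h | h
      · exfalso
        apply hi k
        rw [add_assoc, ← h3 a k i h]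
        exact hpx i
      · intro s
        have hi' := hi s
        rw [← h] at hi'
        exact hfin _ _ hi'
    have e1 := step _ _ _ hk
    have e2 := step _ _ _ e1
    have e3 := step _ _ _ e2
    have e4 := step _ _ _ e3
    have e5 := step _ _ _ e4 0
    have hsum : Z a k k + Z (a + 1) k k + Z (a + 1 + 1) k k + Z (a + 1 + 1 + 1) k k +
        Z (a + 1 + 1 + 1 + 1) k k = 0 := by
      have hs := h4 k
      rw [← Equiv.sum_comp (Equiv.addLeft a)] at hs
      have h5 : ∀ g : ZMod 5 → E, ∑ b, g b = g 0 + g 1 + g 2 + g 3 + g 4 := by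
        intro g
        exact Fin.sum_univ_five g
      rw [h5] at hs
      simp only [Equiv.coe_addLeft, add_zero] at hs
      rw [show a + 1 + 1 = a + 2 by ring, show a + 2 + 1 = a + 3 by ring,
        show a + 3 + 1 = a + 4 by ring]
      exact hs
    have ha : a + 1 + 1 + 1 + 1 + 1 = a := by
      have : (5 : ZMod 5) = 0 := by decide
      calc a + 1 + 1 + 1 + 1 + 1 = a + 5 := by ring
        _ = a := by rw [this, add_zero]
    have hp : p + Z a k k + Z (a + 1) k k + Z (a + 1 + 1) k k + Z (a + 1 + 1 + 1) k k +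
        Z (a + 1 + 1 + 1 + 1) k k = p := by
      have : p + Z a k k + Z (a + 1) k k + Z (a + 1 + 1) k k + Z (a + 1 + 1 + 1) k k +
        Z (a + 1 + 1 + 1 + 1) k k = p + (Z a k k + Z (a + 1) k k + Z (a + 1 + 1) k k +
        Z (a + 1 + 1 + 1) k k + Z (a + 1 + 1 + 1 + 1) k k) := by abel
      rw [this, hsum, add_zero]
    rw [hp, ha, hk 0] at e5
    have hfin3 : ∀ x : Fin 2, x = 1 - (1 - (1 - (1 - (1 - x)))) → False := by decide
    exact hfin3 _ e5

end Pool.Agent.W74.NC.NC2

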