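import Pool.Agent.W557.NC.Defs

set_option autoImplicit false

open scoped BigOperators

namespace Pool.Agent.W74.NC.NC4
open Pool.Agent.W557.NC

lemma mono {x y : ℝ} (hx : 0 ≤ x) (hx1 : x ≤ 1) (hy : 0 ≤ y) (hy1 : y ≤ 1) {a b a' b' : ℕ}
    (ha : a' ≤ a) (hb : b' ≤ b) : x ^ a * y ^ b ≤ x ^ a' * y ^ b' :=
  mul_le_mul (pow_le_pow_of_le_one hx hx1 ha) (pow_le_pow_of_le_one hy hy1 hb)
    (pow_nonneg hy _) (pow_nonneg hx _)

lemma mu_le_one (k : ℕ) : mu k ≤ 1 := (mu_le k).trans (by norm_num)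

lemma Zbd (i s : ℕ) (c : Fin 8) :
    |Zc i s c - (if c = 0 then rho i else 0)| ≤ 3 * mu i ^ 4 := by
  have hx := (mu_pos i).le
  have hx1 := mu_le_one i
  have hy := (mu_pos s).le
  have hy1 := mu_le_one s
  have hx4 : 0 ≤ mu i ^ 4 := by positivity
  have hM : ∀ a b : ℕ, 4 ≤ a → mu i ^ a * mu s ^ b ≤ mu i ^ 4 := by
    intro a b ha
    have := mono hx hx1 hy hy1 ha (Nat.zero_le b)
    simpa using this
  have hP : ∀ a b : ℕ, 0 ≤ mu i ^ a * mu s ^ b := fun a b => by positivity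
  rcases lt_trichotomy s i with h | h | h
  · -- s < i
    have hsi : s ≠ i := h.ne
    have hn : ¬ i < s := by omega
    have e : Yc i s = ![-2 * tt i * Ad s i, Ad s i, 0, 0, 0, -2 * tt s * Ac s i, Ac s i, Bc s i] := by
      unfold Yc; rw [if_neg hsi, if_neg hn]
    have g1 := hM 9 3 (by norm_num)
    have g2 := hM 6 3 (by norm_num)
    have g3 := hM 5 5 (by norm_num)
    have g4 := hM 5 2 (by norm_num)
    have g5 := hM 4 1 (by norm_num)
    have g6 := hM 5 0 (by norm_num)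
    have p1 := hP 9 3
    have p2 := hP 6 3
    have p3 := hP 5 5
    have p4 := hP 5 2
    have p5 := hP 4 1
    have p6 := hP 5 0
    have hP4 := hx4
    rw [abs_le]
    fin_cases c <;> simp [Zc, Qc, e, rho, tt, Ad, Ac, Bc] <;> (try constructor) <;> nlinarith
  · subst h
    have e : Yc s s = 0 := by unfold Yc; rw [if_pos rfl]
    have g6 := hM 5 0 (by norm_num)
    have p6 := hP 5 0
    rw [abs_le]
    fin_cases c <;> simp [Zc, Qc, e, rho, tt] <;> (try constructor) <;> nlinarith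
  · -- i < s
    have hsi : s ≠ i := h.ne'
    have e : Yc i s = ![-2 * tt i * Ac i s, Ac i s, rho s - 2 * tt s * Ad i s,
      rho s * tt s + Ad i s, Bc i s, 0, 0, 0] := by
      unfold Yc; rw [if_neg hsi, if_pos h]
    have hys : mu s ^ 2 ≤ mu i ^ 4 := by
      have h1 := mu_lt h
      have h2 : mu s ≤ mu i ^ 2 := h1.trans (pow_le_pow_of_le_one hx hx1 (by norm_num))
      calc mu s ^ 2 ≤ (mu i ^ 2) ^ 2 := pow_le_pow_left₀ hy h2 2
        _ = mu i ^ 4 := by ring
    have hN : ∀ a b : ℕ, 2 ≤ b → mu i ^ a * mu s ^ b ≤ mu i ^ 4 := by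
      intro a b hb
      have := mono hx hx1 hy hy1 (Nat.zero_le a) hb
      rw [pow_zero, one_mul] at this
      exact this.trans hys
    have g1 := hM 5 5 (by norm_num)
    have g2 := hN 2 5 (by norm_num)
    have g3 := hN 0 2 (by norm_num)
    have g4 := hN 3 9 (by norm_num)
    have g5 := hN 0 5 (by norm_num)
    have g6 := hN 3 6 (by norm_num)
    have g7 := hN 1 4 (by norm_num)
    have g8 := hM 5 0 (by norm_num)
    have p1 := hP 5 5
    have p2 := hP 2 5
    have p3 := hP 0 2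
    have p4 := hP 3 9
    have p5 := hP 0 5
    have p6 := hP 3 6
    have p7 := hP 1 4
    have p8 := hP 5 0
    rw [abs_le]
    fin_cases c <;> simp [Zc, Qc, e, rho, tt, Ad, Ac, Bc] <;> (try constructor) <;> nlinarith

theorem main : S_bd := by
  intro i j s s' hij
  have hx := mu_pos i
  have hx20 := mu_le i
  have hx1 := mu_le_one i
  have hy := mu_pos j
  have hyx := mu_lt hij
  have hy2 : mu j ^ 2 ≤ mu i ^ 4 := by
    have h2 : mu j ≤ mu i ^ 2 := hyx.trans (pow_le_pow_of_le_one hx.le hx1 (by norm_num))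
    calc mu j ^ 2 ≤ (mu i ^ 2) ^ 2 := pow_le_pow_left₀ hy.le h2 2
      _ = mu i ^ 4 := by ring
  have hy4 : mu j ^ 4 ≤ mu i ^ 4 := by
    refine le_trans ?_ hy2
    exact pow_le_pow_of_le_one hy.le (mu_le_one j) (by norm_num)
  have hx2 : mu i ^ 2 ≤ 1 / 10000 := by
    calc mu i ^ 2 ≤ ((1 / 2) ^ 20) ^ 2 := pow_le_pow_left₀ hx.le hx20 2
      _ ≤ 1 / 10000 := by norm_num
  have hx4 : mu i ^ 4 ≤ mu i ^ 2 / 10000 := by
    have : mu i ^ 4 = mu i ^ 2 * mu i ^ 2 := by ring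
    rw [this]
    nlinarith [sq_nonneg (mu i)]
  have hx2p : 0 < mu i ^ 2 := by positivity
  have hx4p : 0 < mu i ^ 4 := by positivity
  have hR : rho i - rho j = mu i ^ 2 - mu j ^ 2 := rfl
  have hRlow : mu i ^ 2 - mu i ^ 4 ≤ rho i - rho j := by rw [hR]; linarith
  have hRpos : 0 < rho i - rho j := by linarith
  -- the second term
  have hq0 : 0 ≤ (rho i * tt i - rho j * tt j) ^ 2 / (2 * (rho i - rho j)) := by positivity
  have hq1 : (rho i * tt i - rho j * tt j) ^ 2 / (2 * (rho i - rho j)) ≤ mu i ^ 4 := by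
    rw [div_le_iff₀ (by linarith)]
    have e1 : rho i * tt i = mu i ^ 5 := by unfold rho tt; ring
    have e2 : rho j * tt j = mu j ^ 5 := by unfold rho tt; ring
    rw [e1, e2]
    have hj5 : 0 ≤ mu j ^ 5 := by positivity
    have hj5' : mu j ^ 5 ≤ mu i ^ 5 := by
      apply pow_le_pow_left₀ hy.le
      exact hyx.trans (by simpa using pow_le_pow_of_le_one hx.le hx1 (show 1 ≤ 10 by norm_num))
    have h1 : (mu i ^ 5 - mu j ^ 5) ^ 2 ≤ (mu i ^ 5) ^ 2 := by
      apply pow_le_pow_left₀ (by linarith); linarith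
    have h2 : (mu i ^ 5) ^ 2 ≤ mu i ^ 4 * mu i ^ 2 := by
      have : (mu i ^ 5) ^ 2 = mu i ^ 10 := by ring
      rw [this]
      have : mu i ^ 4 * mu i ^ 2 = mu i ^ 6 := by ring
      rw [this]
      exact pow_le_pow_of_le_one hx.le hx1 (by norm_num)
    have h3 : mu i ^ 2 ≤ 2 * (rho i - rho j) := by linarith
    calc (mu i ^ 5 - mu j ^ 5) ^ 2 ≤ (mu i ^ 5) ^ 2 := h1
      _ ≤ mu i ^ 4 * mu i ^ 2 := h2
      _ ≤ mu i ^ 4 * (2 * (rho i - rho j)) := by gcongr
  have hdd : dd i j = (rho i - rho j) + (rho i * tt i - rho j * tt j) ^ 2 /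
    (2 * (rho i - rho j)) := rfl
  have hddlow : mu i ^ 2 - mu i ^ 4 ≤ dd i j := by rw [hdd]; linarith
  refine ⟨by linarith, ?_, ?_⟩
  · have h1 := Zbd i s 0
    have h2 := Zbd j s' 0
    rw [if_pos rfl] at h1 h2
    have h3 : (Zc i s - Zc j s') 0 - dd i j = (Zc i s 0 - rho i) - (Zc j s' 0 - rho j) -
        (rho i * tt i - rho j * tt j) ^ 2 / (2 * (rho i - rho j)) := by
      rw [hdd]; simp only [Pi.sub_apply]; ring
    rw [h3, abs_le]
    rw [abs_le] at h1 h2
    constructor <;> linarith [h1.1, h1.2, h2.1, h2.2]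
  · intro c hc
    have h1 := Zbd i s c
    have h2 := Zbd j s' c
    rw [if_neg hc, sub_zero] at h1 h2
    rw [Pi.sub_apply, abs_le]
    rw [abs_le] at h1 h2
    constructor <;> linarith [h1.1, h1.2, h2.1, h2.2]

end Pool.Agent.W74.NC.NC4

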