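import Pool.Agent.W819.NC.Help

/-! Project NC: weighted laws and outer variables. -/

set_option autoImplicit false

namespace Pool.Agent.W74.NC
open H974 Finset Pool.Agent.W819.EN Pool.Agent.W819.NC

/-- weighted Cauchy-Schwarz inequality -/
theorem cs {S : Finset Edg} {U f g : Finset Edg → ℝ} (hU : ∀ F, 0 ≤ U F) :
    (Ex P2 S (fun F => U F * f F * g F)) ^ 2 ≤
      Ex P2 S (fun F => U F * f F ^ 2) * Ex P2 S (fun F => U F * g F ^ 2) := by
  unfold Ex
  have hw : ∀ F : Finset Edg, 0 ≤ (∏ e ∈ F, P2 e) * (∏ e ∈ S \ F, (1 - P2 e)) := fun F =>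
    mul_nonneg (prod_nonneg fun e _ => (ok2 e).1)
      (prod_nonneg fun e _ => by linarith [(ok2 e).2])
  refine Finset.sum_sq_le_sum_mul_sum_of_sq_le_mul _ (fun F _ => ?_) (fun F _ => ?_)
    (fun F _ => ?_)
  · exact mul_nonneg (hw F) (mul_nonneg (hU F) (sq_nonneg _))
  · exact mul_nonneg (hw F) (mul_nonneg (hU F) (sq_nonneg _))
  · exact le_of_eq (by ring)

/-- Cauchy-Schwarz inequality with square roots -/
theorem cs' {S : Finset Edg} {U f g : Finset Edg → ℝ} (hU : ∀ F, 0 ≤ U F) :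
    Ex P2 S (fun F => U F * f F * g F) ≤
      Real.sqrt (Ex P2 S (fun F => U F * f F ^ 2)) *
        Real.sqrt (Ex P2 S (fun F => U F * g F ^ 2)) := by
  rw [← Real.sqrt_mul (Ex_nonneg ok2 fun F _ => mul_nonneg (hU F) (sq_nonneg _))]
  exact Real.le_sqrt_of_sq_le (cs hU)

theorem ex_le {S : Finset Edg} (Y : Finset Edg → ℝ) :
    Ex P2 S Y ≤ Real.sqrt (Ex P2 S (fun F => Y F ^ 2)) := by
  have h := cs' (S := S) (U := fun _ => (1 : ℝ)) (f := fun _ => (1 : ℝ)) (g := Y)
    (fun _ => zero_le_one)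
  simp only [one_mul, one_pow, Ex_const, Real.sqrt_one] at h
  exact h

/-- thin annuli, all inner radii -/
theorem thin {N : NT} (hG : Geo N) (ha : AMom N) (s : ℝ) (hs : 1 ≤ s) (M : ℕ) :
    ∃ C : ℝ, 0 < C ∧ ∀ (v : Vtx) (r R : ℕ) (S : Finset Edg), r ≤ R → R ≤ M * max r 1 →
      bx v R ⊆ S → Ex P2 S (fun F => s ^ N F v r R) ≤ C := by
  obtain ⟨C, hC, h⟩ := ha s hs M
  refine ⟨C + s ^ (2 * M), by positivity, fun v r R S hrR hRM hS => ?_⟩
  have hs0 : 0 < s ^ (2 * M) := by positivity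
  rcases Nat.eq_zero_or_pos r with h0 | h0
  · subst h0
    have h1 : Ex P2 S (fun F => s ^ N F v 0 R) ≤ s ^ (2 * M) := by
      refine Ex_le_of_le ok2 fun F _ => ?_
      refine pow_le_pow_right₀ hs ?_
      have h2 := hG.le F v 0 R
      simp only [Nat.zero_le, sup_of_le_right, mul_one] at hRM
      omega
    linarith
  · have h1 := h v r R S h0 hrR (by rw [max_eq_left (by omega)] at hRM; exact hRM) hS
    linarith

/-- independence -/
theorem indep {N : NT} (hG : Geo N) (hl : LocG N) (t : ℝ) {v : Vtx} {r R₁ c : ℕ}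
    {S T : Finset Edg} {Z : Finset Edg → ℝ} (hr : r ≤ R₁) (hc : R₁ + 1 ≤ c) (hS : bx v R₁ ⊆ S)
    (hT : T ⊆ S) (hd : Disjoint T (bx v ((c : ℤ) - 1)))
    (hZ : ∀ F, F ⊆ S → Z F = Z (F ∩ T)) :
    Ex P2 S (fun F => t ^ N F v r R₁ * Z F) = G N t r R₁ * Ex P2 S Z := by
  rw [Ex_mul_indep (p := P2) hS hT
    (hd.symm.mono_left (bx_mono v (by push_cast; omega))) (fun F _ => by
      rw [loc' hG hr an_sub F]) hZ, hl t v r R₁ S hr hS]

theorem G_mono {N : NT} (hG : Geo N) (hl : LocG N) {t : ℝ} (ht : 1 ≤ t) {r R₁ R : ℕ}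
    (h1 : r ≤ R₁) (h2 : R₁ ≤ R) : G N t r R₁ ≤ G N t r R := by
  rw [← hl t (0, 0) r R₁ (bx (0, 0) R) h1 (bx_mono _ (by exact_mod_cast h2))]
  unfold G
  exact Ex_mono ok2 fun F _ => pow_le_pow_right₀ ht (hG.mono F (0, 0) r r R₁ R le_rfl h2)

theorem wk {x a A g y : ℝ} (hx : x ≤ a * g * y) (hg : 0 ≤ g) (hy : 0 ≤ y) (h : a ≤ A) :
    x ≤ A * g * y :=
  hx.trans (mul_le_mul_of_nonneg_right (mul_le_mul_of_nonneg_right h hg) hy)

theorem t_TIN {N : NT} {W : WT} {K : KT} (h : Sys N W K) (hl : LocG N) (ha : AMom N)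
    (hi : InB N W) (hd : DIn N) : TIn N := by
  intro t M ht
  have hG := h.geo
  rcases le_total 1 t with ht1 | ht1
  · obtain ⟨A₀, hA₀, hI⟩ := hi t (t ^ 2) (7 * M) ht1 (one_le_pow₀ ht1)
    obtain ⟨C, hC, hth⟩ := thin hG ha (t ^ 2) (one_le_pow₀ ht1) (4 * M)
    refine ⟨1 + Real.sqrt A₀ + Real.sqrt C, by positivity, ?_⟩
    intro v r R c S T Y hrR hc hRM hRS hTS hdT hY0 hYT
    have hg := G_nonneg N ht r R
    have hsY : 0 ≤ Real.sqrt (Ex P2 S (fun F => Y F ^ 2)) := Real.sqrt_nonneg _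
    have hsA := Real.sqrt_nonneg A₀
    have hsC := Real.sqrt_nonneg C
    by_cases h1 : R + 1 ≤ c
    · refine wk (a := 1) ?_ hg hsY (by linarith)
      rw [indep hG hl t hrR h1 hRS hTS hdT hYT, one_mul]
      exact mul_le_mul_of_nonneg_left (ex_le Y) hg
    by_cases h2 : r ≤ c / 4 ∧ 1 ≤ c / 4
    · obtain ⟨h2, h3⟩ := h2
      refine wk (a := Real.sqrt A₀) ?_ hg hsY (by linarith)
      obtain ⟨b, hb⟩ : ∃ b, b = c / 4 := ⟨_, rfl⟩
      rw [← hb] at h2 h3
      have hb1 : 2 * b + 1 ≤ c := by omega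
      have hb2 : 2 * b ≤ R := by omega
      have hb3 : R ≤ 7 * M * b := by
        have : c ≤ 7 * b := by omega
        calc R ≤ M * c := hRM
          _ ≤ M * (7 * b) := Nat.mul_le_mul_left _ this
          _ = 7 * M * b := by ring
      have hbS : bx v ((2 * b : ℕ) : ℤ) ⊆ S := (bx_mono v (by exact_mod_cast hb2)).trans hRS
      have e1 : Ex P2 S (fun F => t ^ N F v r R * Y F) ≤
          Ex P2 S (fun F => t ^ N F v r (2 * b) * t ^ (N F v b R + W F v b) * Y F) := by
        refine Ex_mono ok2 fun F _ => mul_le_mul_of_nonneg_right ?_ (hY0 F)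
        rw [← pow_add]
        refine pow_le_pow_right₀ ht1 ?_
        have := h.join F v b r R h3 h2 hb2
        omega
      have e2 := cs' (S := S) (U := fun F => t ^ N F v r (2 * b))
        (f := fun F => t ^ (N F v b R + W F v b)) (g := Y) (fun F => by positivity)
      have e3 : Ex P2 S (fun F => t ^ N F v r (2 * b) * (t ^ (N F v b R + W F v b)) ^ 2) ≤
          A₀ * G N t r (2 * b) := by
        have := hI v r b R S h2 h3 hb2 hb3 hRS
        simpa only [sq_pow] using this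
      have e4 : Ex P2 S (fun F => t ^ N F v r (2 * b) * Y F ^ 2) =
          G N t r (2 * b) * Ex P2 S (fun F => Y F ^ 2) :=
        indep hG hl t (Z := fun F => Y F ^ 2) (by omega) hb1 hbS hTS hdT (fun F hF => by
          rw [← hYT F hF])
      rw [e4] at e2
      have hgb := G_nonneg N ht r (2 * b)
      have e5 : Real.sqrt (A₀ * G N t r (2 * b)) *
          Real.sqrt (G N t r (2 * b) * Ex P2 S (fun F => Y F ^ 2)) =
          Real.sqrt A₀ * G N t r (2 * b) * Real.sqrt (Ex P2 S (fun F => Y F ^ 2)) := by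
        rw [Real.sqrt_mul hA₀.le, Real.sqrt_mul hgb]
        have := Real.mul_self_sqrt hgb
        calc Real.sqrt A₀ * Real.sqrt (G N t r (2 * b)) * (Real.sqrt (G N t r (2 * b)) *
              Real.sqrt (Ex P2 S (fun F => Y F ^ 2))) = Real.sqrt A₀ *
              (Real.sqrt (G N t r (2 * b)) * Real.sqrt (G N t r (2 * b))) *
              Real.sqrt (Ex P2 S (fun F => Y F ^ 2)) := by ring
          _ = _ := by rw [this]
      calc Ex P2 S (fun F => t ^ N F v r R * Y F) ≤ _ := e1.trans e2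
        _ ≤ Real.sqrt (A₀ * G N t r (2 * b)) *
          Real.sqrt (G N t r (2 * b) * Ex P2 S (fun F => Y F ^ 2)) :=
            mul_le_mul_of_nonneg_right (Real.sqrt_le_sqrt e3) (Real.sqrt_nonneg _)
        _ = _ := e5
        _ ≤ _ := by
          refine mul_le_mul_of_nonneg_right (mul_le_mul_of_nonneg_left ?_ hsA) hsY
          exact G_mono hG hl ht1 (by omega) hb2
    · refine wk (a := Real.sqrt C) ?_ hg hsY (by linarith)
      have h3 : R ≤ 4 * M * max r 1 := by
        have h4 : c ≤ 4 * max r 1 := by omega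
        calc R ≤ M * c := hRM
          _ ≤ M * (4 * max r 1) := Nat.mul_le_mul_left _ h4
          _ = 4 * M * max r 1 := by ring
      have e1 := cs' (S := S) (U := fun _ => (1 : ℝ)) (f := fun F => t ^ N F v r R) (g := Y)
        (fun _ => zero_le_one)
      simp only [one_mul, sq_pow] at e1
      have e2 := hth v r R S hrR h3 hRS
      have e3 : 1 ≤ G N t r R := by
        unfold G
        have := Ex_mono ok2 (S := bx (0, 0) R) (f := fun _ => (1 : ℝ))
          (g := fun F => t ^ N F (0, 0) r R) (fun F _ => one_le_pow₀ ht1)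
        rwa [Ex_const] at this
      calc Ex P2 S (fun F => t ^ N F v r R * Y F) ≤ _ := e1
        _ ≤ Real.sqrt C * Real.sqrt (Ex P2 S (fun F => Y F ^ 2)) :=
            mul_le_mul_of_nonneg_right (Real.sqrt_le_sqrt e2) hsY
        _ ≤ _ := by
          refine mul_le_mul_of_nonneg_right ?_ hsY
          exact le_mul_of_one_le_right hsC e3
  · obtain ⟨A₁, hA₁, hI⟩ := hd t (7 * M) ht ht1
    obtain ⟨C, hC, hth⟩ := thin hG ha (1 / t) (by rw [le_div_iff₀ ht]; linarith) (4 * M)
    refine ⟨1 + A₁ + C, by positivity, ?_⟩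
    intro v r R c S T Y hrR hc hRM hRS hTS hdT hY0 hYT
    have hg := G_nonneg N ht r R
    have hsY : 0 ≤ Real.sqrt (Ex P2 S (fun F => Y F ^ 2)) := Real.sqrt_nonneg _
    by_cases h1 : R + 1 ≤ c
    · refine wk (a := 1) ?_ hg hsY (by linarith)
      rw [indep hG hl t hrR h1 hRS hTS hdT hYT, one_mul]
      exact mul_le_mul_of_nonneg_left (ex_le Y) hg
    by_cases h2 : r ≤ c / 4 ∧ 1 ≤ c / 4
    · obtain ⟨h2, h3⟩ := h2
      refine wk (a := A₁) ?_ hg hsY (by linarith)
      obtain ⟨b, hb⟩ : ∃ b, b = c / 4 := ⟨_, rfl⟩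
      rw [← hb] at h2 h3
      have hb1 : 2 * b + 1 ≤ c := by omega
      have hb2 : 2 * b ≤ R := by omega
      have hb3 : R ≤ 7 * M * (2 * b) := by
        have : c ≤ 7 * b := by omega
        calc R ≤ M * c := hRM
          _ ≤ M * (7 * b) := Nat.mul_le_mul_left _ this
          _ = 7 * M * b := by ring
          _ ≤ 7 * M * (2 * b) := Nat.mul_le_mul_left _ (by omega)
      have hbS : bx v ((2 * b : ℕ) : ℤ) ⊆ S := (bx_mono v (by exact_mod_cast hb2)).trans hRS
      have e1 : Ex P2 S (fun F => t ^ N F v r R * Y F) ≤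
          Ex P2 S (fun F => t ^ N F v r (2 * b) * Y F) := by
        refine Ex_mono ok2 fun F _ => mul_le_mul_of_nonneg_right ?_ (hY0 F)
        exact pow_le_pow_of_le_one ht.le ht1 (hG.mono F v r r (2 * b) R le_rfl hb2)
      rw [indep hG hl t (by omega) hb1 hbS hTS hdT hYT] at e1
      calc Ex P2 S (fun F => t ^ N F v r R * Y F) ≤ _ := e1
        _ ≤ G N t r (2 * b) * Real.sqrt (Ex P2 S (fun F => Y F ^ 2)) :=
            mul_le_mul_of_nonneg_left (ex_le Y) (G_nonneg N ht r (2 * b))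
        _ ≤ _ := mul_le_mul_of_nonneg_right
            (hI r (2 * b) R (by omega) (by omega) hb2 hb3) hsY
    · refine wk (a := C) ?_ hg hsY (by linarith)
      have h3 : R ≤ 4 * M * max r 1 := by
        have h4 : c ≤ 4 * max r 1 := by omega
        calc R ≤ M * c := hRM
          _ ≤ M * (4 * max r 1) := Nat.mul_le_mul_left _ h4
          _ = 4 * M * max r 1 := by ring
      have e1 : Ex P2 S (fun F => t ^ N F v r R * Y F) ≤ Ex P2 S Y := by
        refine Ex_mono ok2 fun F _ => ?_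
        exact mul_le_of_le_one_left (hY0 F) (pow_le_one₀ ht.le ht1)
      have e2 := hth v r R S hrR h3 hRS
      have e3 : 1 ≤ C * G N t r R := by
        have e4 := cs (S := S) (U := fun F => t ^ N F v r R) (f := fun _ => (1 : ℝ))
          (g := fun F => (1 / t) ^ N F v r R) (fun F => by positivity)
        have e5 : (fun F : Finset Edg => t ^ N F v r R * 1 * (1 / t) ^ N F v r R) =
            fun _ => (1 : ℝ) := by
          ext F
          rw [mul_one, ← mul_pow, mul_one_div_cancel ht.ne', one_pow]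
        have e6 : (fun F : Finset Edg => t ^ N F v r R * ((1 / t) ^ N F v r R) ^ 2) =
            fun F => (1 / t) ^ N F v r R := by
          ext F
          rw [pow_two, ← mul_assoc, ← mul_pow, mul_one_div_cancel ht.ne', one_pow, one_mul]
        rw [e5, e6, Ex_const] at e4
        simp only [one_pow, mul_one] at e4
        rw [hl t v r R S hrR hRS] at e4
        calc (1 : ℝ) ≤ _ := e4
          _ ≤ G N t r R * C := mul_le_mul_of_nonneg_left e2 hg
          _ = _ := mul_comm _ _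
      calc Ex P2 S (fun F => t ^ N F v r R * Y F) ≤ _ := e1
        _ ≤ _ := ex_le Y
        _ ≤ _ := le_mul_of_one_le_left hsY e3

end Pool.Agent.W74.NC
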